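import Pool.Agent.Lib.MP_91a79a_co.SphDef

/-! piece G1 (MP_91a79a_co): elementary axioms of the sphere of a triangulation -/

noncomputable section

namespace MP91a79a

open Set Classical

variable {P : Finset Pt} {T : Finset (Finset Pt)}

private theorem G1_third (h3 : 3 ≤ P.card) (x y : Pt) : ∃ p ∈ P, p ≠ x ∧ p ≠ y := by
  have h : ({x, y} : Finset Pt).card < P.card := by
    have := Finset.card_le_two (a := x) (b := y)
    omega
  obtain ⟨p, hp, hp'⟩ := Finset.exists_mem_notMem_of_card_lt_card h
  simp only [Finset.mem_insert, Finset.mem_singleton, not_or] at hp'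
  exact ⟨p, hp, hp'.1, hp'.2⟩

private theorem G1_two (hG : GP P) (h3 : 3 ≤ P.card) {x y : Pt} (h : HE P x y)
    (h' : HE P y x) : False := by
  obtain ⟨p, hp, hpx, hpy⟩ := G1_third h3 x y
  have h1 := h.pos hG hp hpx hpy
  have h2 := h'.pos hG hp hpy hpx
  rw [cr_swap] at h2
  linarith

private theorem G1_fin (hT : STri P T) {x y z : Pt} (h : {x, y, z} ∈ T) (h0 : 0 < cr x y z)
    (h' : HE P y x) : False := by
  have h1 := h'.2.2.2 z (hT.sub _ h (by simp))
  rw [cr_swap] at h1
  linarith

/-- PROOF. Cases on none/some (`rcases`, `simp only [OT] at h h'`).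
all finite: `STri.unique`; `z` finite, `z'` = none: `{x,y,z} ∈ T`, `0 < cr x y z`, but `HE P y x`
gives `0 ≤ cr y x z = - cr x y z` (`cr_swap`); `x` finite, `y` = none: `HE.succ_unique`;
`x` = none: `HE.pred_unique`. -/
theorem OT_fn (hG : GP P) (hT : STri P T) (h3 : 3 ≤ P.card) (x y z z' : Option Pt)
    (h : OT P T x y z) (h' : OT P T x y z') : z = z' := by
  rcases x with _ | x <;> rcases y with _ | y <;> rcases z with _ | z <;>
    rcases z' with _ | z' <;> simp only [OT] at h h'
  · rw [h.pred_unique hG h']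
  · rw [h.succ_unique hG h']
  · rfl
  · exact (G1_fin hT h'.1 h'.2 h).elim
  · exact (G1_fin hT h.1 h.2 h').elim
  · rw [hT.unique h.1 h'.1 (mul_pos h.2 h'.2)]

/-- PROOF. (some x, some y, some z): if some `p ∈ P` has `0 < cr y x p`, `STri.other` gives the
triangle on the left of `y → x`; otherwise `HE P x y`, take `w = none`.
(some x, some y, none), i.e. `HE P y x`: `HE.side`, a third point `p ∈ P` (`3 ≤ card`), `HE.pos`,
`STri.other`. (some y, none, some x): `HE P y x`, `HV.pred` at `y` (`HE.hv_left`).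
(none, some x, some y): `HE P y x`, `HV.succ` at `x` (`HE.hv_right`). -/
theorem OT_opp (hG : GP P) (hT : STri P T) (h3 : 3 ≤ P.card) (x y z : Option Pt)
    (h : OT P T x y z) : ∃ w, OT P T y x w := by
  rcases x with _ | x <;> rcases y with _ | y <;> rcases z with _ | z <;> simp only [OT] at h
  · obtain ⟨b, hb⟩ := h.hv_right.succ hG h.2.1 (by omega)
    exact ⟨some b, hb⟩
  · obtain ⟨a, ha⟩ := h.hv_left.pred hG h.1 (by omega)
    exact ⟨some a, ha⟩
  · obtain ⟨p, hp, hpx, hpy⟩ := G1_third h3 y x
    have h1 := h.pos hG hp hpx hpy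
    obtain ⟨c, hc, hc'⟩ := hT.other hG (h.side hG hT) hp h1.ne'
    exact ⟨some c, hc, (pos_iff_pos_of_mul_pos hc').2 h1⟩
  · obtain ⟨h1, h2⟩ := h
    have hne := ne_of_cr h2.ne'
    by_cases hex : ∃ p ∈ P, 0 < cr y x p
    · obtain ⟨p, hp, hp0⟩ := hex
      obtain ⟨c, hc, hc'⟩ := hT.other hG (a := y) (b := x)
        ⟨hne.1.symm, _, h1, by simp, by simp⟩ hp hp0.ne'
      exact ⟨some c, hc, (pos_iff_pos_of_mul_pos hc').2 hp0⟩
    · push Not at hex
      refine ⟨none, hT.sub _ h1 (by simp), hT.sub _ h1 (by simp), hne.1, fun w hw => ?_⟩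
      have := hex w hw
      rw [cr_swap] at this
      linarith

/-- PROOF. Otherwise `z = w`: all finite: `0 < cr x y z` and `0 < cr y x z`; one of the three is
none: both `HE P u v` and `HE P v u` for two points; a third point of `P` gives `0 < cr u v p` and
`0 < cr v u p` (`HE.pos`). -/
theorem OT_opp_ne (hG : GP P) (hT : STri P T) (h3 : 3 ≤ P.card) (x y z w : Option Pt)
    (h : OT P T x y z) (h' : OT P T y x w) : z ≠ w := by
  rintro rfl
  rcases x with _ | x <;> rcases y with _ | y <;> rcases z with _ | z <;>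
    simp only [OT] at h h'
  · exact G1_two hG h3 h h'
  · exact G1_two hG h3 h h'
  · exact G1_two hG h3 h h'
  · have h1 := h.2
    have h2 := h'.2
    rw [cr_swap] at h2
    linarith

/-- PROOF. `v = some p`: `p` is a vertex of a triangle of `T` (`near` in Few.lean, or: `p` is in
some triangle by `tri_mem_cover`, and `STri.empty`-type field: points of `P` in a triangle are
vertices); write it as `{p, x, y}` with `cr p x y > 0`.
`v = none`: a hull vertex exists (for example the point of `P` with lexicographically largest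
coordinates, or: the maximum of the functional `lf α β`, see `HV`), then `HV.succ`. -/
theorem OT_vert (hG : GP P) (hT : STri P T) (h3 : 3 ≤ P.card) (v : Option Pt) (h : v ∈ Wp P) :
    ∃ x y, OT P T v x y := by
  rw [mem_Wp] at h
  rcases h with rfl | ⟨p, hp, rfl⟩
  · have hne : P.Nonempty := by rw [← Finset.card_pos]; omega
    obtain ⟨v, hv, hmax⟩ := P.exists_max_image (lf 1 0) hne
    have hHV : HV P v := ⟨1, 0, Or.inl one_ne_zero, hmax⟩
    obtain ⟨b, hb⟩ := hHV.succ hG hv (by omega)
    exact ⟨some b, some v, hb⟩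
  · obtain ⟨t, ht, hpt⟩ := tri_mem_cover hT.toIs (subset_convexHull ℝ _ (Finset.mem_coe.2 hp))
    have hpt' := hT.strict t ht p hp hpt
    obtain ⟨a, b, c, rfl, h0⟩ := repr_tri (hT.card t ht) (hT.nondeg t ht)
    simp only [Finset.mem_insert, Finset.mem_singleton] at hpt'
    rcases hpt' with rfl | rfl | rfl
    · exact ⟨some b, some c, ht, h0⟩
    · exact ⟨some c, some a, by rw [perm_bca]; exact ht, by rw [← cr_rot]; exact h0⟩
    · exact ⟨some a, some b, by rw [perm_cab]; exact ht, by rw [cr_rot]; exact h0⟩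

end MP91a79a

end
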