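import Pool.Agent.Lib.MP_91a79a_co.SphDef

/-! piece G5 (MP_91a79a_co): flips on the sphere -/

noncomputable section

namespace MP91a79a

open Set Classical

variable {P : Finset Pt} {T : Finset (Finset Pt)}

/-- positively oriented orderings of a triangle are rotations of each other -/
private theorem G5_orient {a b c x y z : Pt} (h0 : 0 < cr a b c) :
    (({x, y, z} : Finset Pt) = {a, b, c} ∧ 0 < cr x y z) ↔ Rot a b c x y z := by
  constructor
  · rintro ⟨he, h1⟩
    have hx : x ∈ ({a, b, c} : Finset Pt) := by rw [← he]; simp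
    have hy : y ∈ ({a, b, c} : Finset Pt) := by rw [← he]; simp
    have hz : z ∈ ({a, b, c} : Finset Pt) := by rw [← he]; simp
    obtain ⟨n1, n2, n3⟩ := ne_of_cr h1.ne'
    have e1 : cr a c b = - cr a b c := by unfold cr; ring
    have e2 : cr b a c = - cr a b c := by unfold cr; ring
    have e3 : cr c b a = - cr a b c := by unfold cr; ring
    simp only [Finset.mem_insert, Finset.mem_singleton] at hx hy hz
    unfold Rot
    rcases hx with rfl | rfl | rfl <;> rcases hy with rfl | rfl | rfl <;>
      rcases hz with rfl | rfl | rfl <;>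
      first
        | exact absurd rfl n1
        | exact absurd rfl n2
        | exact absurd rfl n3
        | exact Or.inl ⟨rfl, rfl, rfl⟩
        | exact Or.inr (Or.inl ⟨rfl, rfl, rfl⟩)
        | exact Or.inr (Or.inr ⟨rfl, rfl, rfl⟩)
        | (exfalso; linarith)
  · rintro (⟨rfl, rfl, rfl⟩ | ⟨rfl, rfl, rfl⟩ | ⟨rfl, rfl, rfl⟩)
    · exact ⟨rfl, h0⟩
    · exact ⟨perm_bca _ _ _, by rw [← cr_rot]; exact h0⟩
    · exact ⟨perm_cab _ _ _, by rw [cr_rot]; exact h0⟩

private theorem G5_rot_some {a b c x y z : Pt} :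
    Rot (some a) (some b) (some c) (some x) (some y) (some z) ↔ Rot a b c x y z := by
  unfold Rot
  simp only [Option.some.injEq]

/-- PROOF. `STri.flip` (InsFlip.lean) gives `STri P T'` for the stated `T'`; the new triangles are
not in `T` (`STri.new_not_mem`).  For the description of `OT P T'`: `funext`, cases none/some; the
infinite triangles do not depend on `T`, and none of the rotations has a `none`. Finite triangles:
`{x,y,z} ∈ T'` and `0 < cr x y z`: either `{x,y,z} ∈ T` and different from `{p,q,r}`, `{p,q,s}` (a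
positively oriented `x y z` with `{x,y,z} = {p,q,r}` is a rotation of `p q r`, because `0 < cr p q r`
and odd permutations have negative orientation), or `{x,y,z} = {p,r,s}`: rotation of `p s r`
(`0 < cr p s r` from `Cross`, see `Cross.signs`, `0 < cr p q r`, `0 < cr q p s`), or
`{x,y,z} = {q,r,s}`: rotation of `s q r`. -/
theorem OT_flip (hG : GP P) (hT : STri P T) {p q r s : Pt}
    (h1 : OT P T (some p) (some q) (some r)) (h2 : OT P T (some q) (some p) (some s))
    (hc : Cross p q r s) : ∃ T', STri P T' ∧
      OT P T' = Flip (OT P T) (some p) (some q) (some r) (some s) ∧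
      T' = (T \ {{p, q, r}, {p, q, s}}) ∪ {{p, r, s}, {q, r, s}} := by
  obtain ⟨m1, c1⟩ := h1
  obtain ⟨m2, c2⟩ := h2
  have m2' : ({p, q, s} : Finset Pt) ∈ T := by rw [← perm_bac]; exact m2
  have hst := hT.flip m1 m2' hc
  refine ⟨_, hst, ?_, rfl⟩
  have c3 : cr p q s < 0 := by
    rw [cr_swap] at c2
    linarith
  have hs : 0 < cr s r p ∧ cr s r q < 0 := by
    rcases hc.signs with ⟨g1, _, _, _⟩ | ⟨_, _, g3, g4⟩
    · exfalso; linarith
    · exact ⟨g3, g4⟩
  have c4 : 0 < cr p s r := by rw [cr_rot]; exact hs.1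
  have c5 : 0 < cr s q r := by
    have : cr s q r = - cr s r q := by unfold cr; ring
    rw [this]; linarith [hs.2]
  funext x y z
  apply propext
  rcases x with _ | x <;> rcases y with _ | y <;> rcases z with _ | z
  · simp [OT, Flip, Rot]
  · simp [OT, Flip, Rot]
  · simp [OT, Flip, Rot]
  · simp [OT, Flip, Rot]
  · simp [OT, Flip, Rot]
  · simp [OT, Flip, Rot]
  · simp [OT, Flip, Rot]
  · unfold Flip
    simp only [G5_rot_some]
    simp only [OT, Finset.mem_union, Finset.mem_sdiff, Finset.mem_insert, Finset.mem_singleton]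
    rw [← G5_orient (x := x) (y := y) (z := z) c1, ← G5_orient (x := x) (y := y) (z := z) c2,
      ← G5_orient (x := x) (y := y) (z := z) c4, ← G5_orient (x := x) (y := y) (z := z) c5]
    have e1 : ({q, p, s} : Finset Pt) = {p, q, s} := perm_bac p q s
    have e2 : ({p, s, r} : Finset Pt) = {p, r, s} := perm_acb p r s
    have e3 : ({s, q, r} : Finset Pt) = {q, r, s} := (perm_bca s q r).symm
    rw [e1, e2, e3]
    tauto

/-- the same as sets of sides: a flip removes the side `pq` and adds the side `rs`, nothing else.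
PROOF. unfold `Side`; every side of an old triangle except `pq` is a side of a new triangle. -/
theorem Side_flip (hT : STri P T) {p q r s : Pt} {T' : Finset (Finset Pt)}
    (h1 : {p, q, r} ∈ T) (h2 : {p, q, s} ∈ T) (hc : Cross p q r s)
    (hT' : T' = (T \ {{p, q, r}, {p, q, s}}) ∪ {{p, r, s}, {q, r, s}}) (x y : Pt) :
    Side T' x y ↔ (Side T x y ∧ ¬ ((x = p ∧ y = q) ∨ (x = q ∧ y = p))) ∨
      ((x = r ∧ y = s) ∨ (x = s ∧ y = r)) := by
  obtain ⟨npq, npr, nps, nqr, nqs, nrs⟩ := hc.distinct
  have t1 : ({p, r, s} : Finset Pt) ∈ T' := by rw [hT']; simp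
  have t2 : ({q, r, s} : Finset Pt) ∈ T' := by rw [hT']; simp
  have s1 : Side T p r := ⟨npr, _, h1, by simp, by simp⟩
  have s2 : Side T q r := ⟨nqr, _, h1, by simp, by simp⟩
  have s3 : Side T p s := ⟨nps, _, h2, by simp, by simp⟩
  have s4 : Side T q s := ⟨nqs, _, h2, by simp, by simp⟩
  have u1 : Side T' p r := ⟨npr, _, t1, by simp, by simp⟩
  have u2 : Side T' q r := ⟨nqr, _, t2, by simp, by simp⟩
  have u3 : Side T' p s := ⟨nps, _, t1, by simp, by simp⟩
  have u4 : Side T' q s := ⟨nqs, _, t2, by simp, by simp⟩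
  have u5 : Side T' r s := ⟨nrs, _, t1, by simp, by simp⟩
  -- a triangle of `T` with vertices `p`, `q` is one of the two old ones
  have key : ∀ t ∈ T, p ∈ t → q ∈ t → t = {p, q, r} ∨ t = {p, q, s} := by
    intro t ht hp hq
    obtain ⟨c, rfl, hcc⟩ := hT.side_cr ht npq hp hq
    have hcr := hc.ne
    rcases lt_or_gt_of_ne hcc with g | g
    · rcases mul_neg_iff.1 hc.1 with ⟨g1, g2⟩ | ⟨g1, g2⟩
      · right; rw [hT.unique ht h2 (mul_pos_of_neg_of_neg g g2)]
      · left; rw [hT.unique ht h1 (mul_pos_of_neg_of_neg g g1)]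
    · rcases mul_neg_iff.1 hc.1 with ⟨g1, g2⟩ | ⟨g1, g2⟩
      · left; rw [hT.unique ht h1 (mul_pos g g1)]
      · right; rw [hT.unique ht h2 (mul_pos g g2)]
  constructor
  · rintro ⟨hxy, t, ht, hxt, hyt⟩
    rw [hT', Finset.mem_union, Finset.mem_sdiff] at ht
    simp only [Finset.mem_insert, Finset.mem_singleton, not_or] at ht
    rcases ht with ⟨ht, hn1, hn2⟩ | rfl | rfl
    · left
      refine ⟨⟨hxy, t, ht, hxt, hyt⟩, ?_⟩
      rintro (⟨rfl, rfl⟩ | ⟨rfl, rfl⟩)
      · rcases key t ht hxt hyt with h | h
        · exact hn1 h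
        · exact hn2 h
      · rcases key t ht hyt hxt with h | h
        · exact hn1 h
        · exact hn2 h
    · simp only [Finset.mem_insert, Finset.mem_singleton] at hxt hyt
      rcases hxt with rfl | rfl | rfl <;> rcases hyt with rfl | rfl | rfl <;>
        first
          | exact absurd rfl hxy
          | exact Or.inr (Or.inl ⟨rfl, rfl⟩)
          | exact Or.inr (Or.inr ⟨rfl, rfl⟩)
          | exact Or.inl ⟨s1, by simp [npq, npq.symm, npr, npr.symm, nqr, nqr.symm]⟩
          | exact Or.inl ⟨s1.symm, by simp [npq, npq.symm, npr, npr.symm, nqr, nqr.symm]⟩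
          | exact Or.inl ⟨s3, by simp [npq, npq.symm, nps, nps.symm, nqs, nqs.symm]⟩
          | exact Or.inl ⟨s3.symm, by simp [npq, npq.symm, nps, nps.symm, nqs, nqs.symm]⟩
    · simp only [Finset.mem_insert, Finset.mem_singleton] at hxt hyt
      rcases hxt with rfl | rfl | rfl <;> rcases hyt with rfl | rfl | rfl <;>
        first
          | exact absurd rfl hxy
          | exact Or.inr (Or.inl ⟨rfl, rfl⟩)
          | exact Or.inr (Or.inr ⟨rfl, rfl⟩)
          | exact Or.inl ⟨s2, by simp [npq, npq.symm, npr, npr.symm, nqr, nqr.symm]⟩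
          | exact Or.inl ⟨s2.symm, by simp [npq, npq.symm, npr, npr.symm, nqr, nqr.symm]⟩
          | exact Or.inl ⟨s4, by simp [npq, npq.symm, nps, nps.symm, nqs, nqs.symm]⟩
          | exact Or.inl ⟨s4.symm, by simp [npq, npq.symm, nps, nps.symm, nqs, nqs.symm]⟩
  · rintro (⟨⟨hxy, t, ht, hxt, hyt⟩, hn⟩ | ⟨rfl, rfl⟩ | ⟨rfl, rfl⟩)
    · by_cases hold : t = {p, q, r} ∨ t = {p, q, s}
      · rcases hold with rfl | rfl
        · simp only [Finset.mem_insert, Finset.mem_singleton] at hxt hyt
          rcases hxt with rfl | rfl | rfl <;> rcases hyt with rfl | rfl | rfl <;>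
            first
              | exact absurd rfl hxy
              | exact absurd (Or.inl ⟨rfl, rfl⟩) hn
              | exact absurd (Or.inr ⟨rfl, rfl⟩) hn
              | exact u1
              | exact u1.symm
              | exact u2
              | exact u2.symm
        · simp only [Finset.mem_insert, Finset.mem_singleton] at hxt hyt
          rcases hxt with rfl | rfl | rfl <;> rcases hyt with rfl | rfl | rfl <;>
            first
              | exact absurd rfl hxy
              | exact absurd (Or.inl ⟨rfl, rfl⟩) hn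
              | exact absurd (Or.inr ⟨rfl, rfl⟩) hn
              | exact u3
              | exact u3.symm
              | exact u4
              | exact u4.symm
      · refine ⟨hxy, t, ?_, hxt, hyt⟩
        rw [hT', Finset.mem_union, Finset.mem_sdiff]
        left
        refine ⟨ht, ?_⟩
        simp only [Finset.mem_insert, Finset.mem_singleton]
        exact hold
    · exact u5
    · exact u5.symm

end MP91a79a

end
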