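import Pool.Agent.Lib.MP_91a79a_co.SphDef
import Pool.Agent.Lib.MP_91a79a_co.Deg
import Pool.Agent.Lib.MP_91a79a_co.G.G1

/-! piece G2 (MP_91a79a_co): a nonempty set of triangles without boundary is everything -/

noncomputable section

namespace MP91a79a

open Set Classical

variable {P : Finset Pt} {T : Finset (Finset Pt)}

/-- every vertex which is not the highest one has a higher neighbour.
PROOF. Let `q ∈ P` with `lf α β v < lf α β q`. The segment from `v` to `q` is in the hull;
`STri.germ` (InsBase.lean) with `m = v`, `w = q - v` gives a triangle `t ∋ v` (in its hull, so `v`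
is a vertex of `t`) and `s > 0` with `v + s • w` in the hull of `t`; since `lf α β (v + s • w) >
lf α β v`, some vertex `u` of `t` has `lf α β u > lf α β v` (`hull_max` in Res.lean or
`lf_hull_le`). -/
theorem higher_nbr (hG : GP P) (hT : STri P T) {v q : Pt} (hv : v ∈ P) (hq : q ∈ P) (α β : ℝ)
    (h : lf α β v < lf α β q) : ∃ u, Side T v u ∧ lf α β v < lf α β u := by
  obtain ⟨t, ht, hvt, s, hs, hst⟩ := hT.germ (m := v) (w := q - v) (by
    intro s hs0 hs1
    have e : v + s • (q - v) = (1 - s) • v + s • q := by module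
    rw [e]
    exact (convex_convexHull ℝ _) (subset_convexHull ℝ _ hv) (subset_convexHull ℝ _ hq)
      (by linarith) hs0.le (by ring))
  have hvt' := hT.strict t ht v hv hvt
  by_contra hcon
  push Not at hcon
  have hle : ∀ w ∈ t, lf α β w ≤ lf α β v := by
    intro w hw
    by_cases hwv : w = v
    · rw [hwv]
    · exact hcon w ⟨fun e => hwv e.symm, t, ht, hvt', hw⟩
  have h1 := lf_hull_le hle hst
  have e : v + s • (q - v) = (1 - s) • v + s • q := by module
  rw [e, lf_add, lf_smul, lf_smul] at h1
  nlinarith [mul_pos hs (sub_pos.2 h)]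

/-- PROOF. `hlink` implies: if one triangle at a vertex `v` is in `M` then all triangles at `v` are
in `M` (apply `hlink v` with `S x := ∃ y, M v x y`: if `M v x y` and `OT v y z` then `M y v x` by
rotation, so by `h4` (opposite triangle at the edge `y v`: `OT v y z`) `M v y z`).
Let `VM x := ∃ y z, M x y z`. `VM` is closed under adjacency: `VM x`, `OT x y z` imply `M x y z`, so
`VM y`, `VM z`. The complement of `VM` (inside the vertices) is closed under adjacency as well.
Take a functional `lf α β` which has its maximum over `P` at only one point `q` (for example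
perturb: or take any functional and let `q1, q2` be the at most 2 maximisers: by GP they are joined
by a hull edge, which is a side (`hull_side`); simplest: choose the lexicographic maximum and use
two steps, or use a functional (α, β) such that `lf` is injective on `P`: it exists because only
finitely many directions are bad). By `higher_nbr` and induction (on the number of higher points)
every vertex of `P` is connected to `q`: so `VM q` (a finite vertex of a triangle in `M`), and if
some vertex was not in `VM` then `q` was not in `VM` (for `none`: it is adjacent to the hull vertex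
`q`: `HV.succ`). Hence all vertices are in `VM` and every triangle is in `M`. -/
theorem OT_conn (hG : GP P) (hT : STri P T) (h3 : 3 ≤ P.card)
    (hlink : ∀ v : Option Pt, ∀ S : Option Pt → Prop, (∃ x y, S x ∧ OT P T v x y) →
      (∀ x y, S x → OT P T v x y → S y) → ∀ x y, OT P T v x y → S x)
    (M : Option Pt → Option Pt → Option Pt → Prop) (h1 : ∀ x y z, M x y z → OT P T x y z)
    (h2 : ∀ x y z, M x y z → M y z x) (h4 : ∀ x y z w, M x y z → OT P T y x w → M y x w)
    (h5 : ∃ x y z, M x y z) (x y z : Option Pt) (h : OT P T x y z) : M x y z := by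
  -- all triangles at a vertex
  have hall : ∀ v x₀ y₀, M v x₀ y₀ → ∀ x y, OT P T v x y → M v x y := by
    intro v x₀ y₀ h0 x y hxy
    obtain ⟨y', hy'⟩ := hlink v (fun x => ∃ y, M v x y) ⟨x₀, y₀, ⟨y₀, h0⟩, h1 _ _ _ h0⟩ (by
      rintro x y ⟨y', hy'⟩ hxy
      have e : y' = y := OT_fn hG hT h3 _ _ _ _ (h1 _ _ _ hy') hxy
      rw [e] at hy'
      have h6 : M y v x := h2 _ _ _ (h2 _ _ _ hy')
      obtain ⟨w, hw⟩ := OT_opp hG hT h3 _ _ _ (h1 _ _ _ h6)
      exact ⟨w, h4 _ _ _ _ h6 hw⟩) x y hxy
    have e : y' = y := OT_fn hG hT h3 _ _ _ _ (h1 _ _ _ hy') hxy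
    rw [← e]
    exact hy'
  let VM : Option Pt → Prop := fun x => ∃ y z, M x y z
  have hVM : ∀ x y z, OT P T x y z → (VM x ↔ VM y) ∧ (VM x ↔ VM z) := by
    have hstep : ∀ x y z, OT P T x y z → VM x → VM y ∧ VM z := by
      rintro x y z hxyz ⟨x₀, y₀, h0⟩
      have h6 := hall x x₀ y₀ h0 y z hxyz
      have h7 := h2 _ _ _ h6
      exact ⟨⟨_, _, h7⟩, ⟨_, _, h2 _ _ _ h7⟩⟩
    intro x y z hxyz
    have hr1 := OT_rot _ _ _ hxyz
    have hr2 := OT_rot _ _ _ hr1
    exact ⟨⟨fun h => (hstep _ _ _ hxyz h).1, fun h => (hstep _ _ _ hr1 h).2⟩,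
      ⟨fun h => (hstep _ _ _ hxyz h).2, fun h => (hstep _ _ _ hr2 h).1⟩⟩
  have hside : ∀ v u : Pt, Side T v u → (VM (some v) ↔ VM (some u)) := by
    rintro v u ⟨hvu, t, ht, hvt, hut⟩
    obtain ⟨c, rfl, hc⟩ := hT.side_cr ht hvu hvt hut
    rcases lt_or_gt_of_ne hc with g | g
    · have ho : OT P T (some u) (some v) (some c) := ⟨by rw [perm_bac]; exact ht, by
        rw [cr_swap]; linarith⟩
      exact (hVM _ _ _ ho).1.symm
    · exact (hVM (some v) (some u) (some c) ⟨ht, g⟩).1
  have hne : P.Nonempty := by rw [← Finset.card_pos]; omega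
  obtain ⟨q, hq, m, n, hmn, hmin⟩ := exists_extreme P hne
  -- connection with `q`
  have hfin : ∀ N : ℕ, ∀ v ∈ P, (P.filter (fun u => lf (-m) (-n) v < lf (-m) (-n) u)).card ≤ N →
      (VM (some v) ↔ VM (some q)) := by
    intro N
    induction N with
    | zero =>
      intro v hv hcard
      by_cases hvq : v = q
      · rw [hvq]
      · exfalso
        have h6 := hmin v hv hvq
        have h7 : q ∈ P.filter (fun u => lf (-m) (-n) v < lf (-m) (-n) u) := by
          rw [Finset.mem_filter]
          refine ⟨hq, ?_⟩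
          unfold lf at h6 ⊢
          linarith
        have h8 := Finset.card_pos.2 ⟨q, h7⟩
        omega
    | succ N ih =>
      intro v hv hcard
      by_cases hvq : v = q
      · rw [hvq]
      · have h6 := hmin v hv hvq
        have h7 : lf (-m) (-n) v < lf (-m) (-n) q := by
          unfold lf at h6 ⊢
          linarith
        obtain ⟨u, hu, hvu⟩ := higher_nbr hG hT hv hq (-m) (-n) h7
        rw [hside v u hu]
        have huP := (Side.mem hT hu).2
        refine ih u huP ?_
        have h8 : (P.filter (fun w => lf (-m) (-n) u < lf (-m) (-n) w)).card <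
            (P.filter (fun w => lf (-m) (-n) v < lf (-m) (-n) w)).card := by
          apply Finset.card_lt_card
          rw [Finset.ssubset_iff_of_subset]
          · refine ⟨u, Finset.mem_filter.2 ⟨huP, hvu⟩, fun hcon => ?_⟩
            exact lt_irrefl _ (Finset.mem_filter.1 hcon).2
          · intro w hw
            rw [Finset.mem_filter] at hw ⊢
            exact ⟨hw.1, hvu.trans hw.2⟩
        omega
  have hHV : HV P q := by
    refine ⟨-m, -n, ?_, fun w hw => ?_⟩
    · rcases hmn with h | h
      · exact Or.inl (neg_ne_zero.2 h)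
      · exact Or.inr (neg_ne_zero.2 h)
    · by_cases hwq : w = q
      · rw [hwq]
      · have h6 := hmin w hw hwq
        unfold lf at h6 ⊢
        linarith
  have hcon : ∀ v ∈ Wp P, (VM v ↔ VM (some q)) := by
    intro v hv
    rw [mem_Wp] at hv
    rcases hv with rfl | ⟨p, hp, rfl⟩
    · obtain ⟨b, hb⟩ := hHV.succ hG hq (by omega)
      exact (hVM none (some b) (some q) hb).2
    · exact hfin _ p hp le_rfl
  obtain ⟨x₀, y₀, z₀, h0⟩ := h5
  have hq' : VM (some q) := (hcon x₀ (OT_mem hT _ _ _ (h1 _ _ _ h0))).1 ⟨y₀, z₀, h0⟩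
  obtain ⟨x₁, y₁, h6⟩ := (hcon x (OT_mem hT _ _ _ h)).2 hq'
  exact hall x x₁ y₁ h6 y z h

end MP91a79a

end
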