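import Pool.Agent.Lib.MP_91a79a_co.SphDef

/-! piece G3 (MP_91a79a_co): the triangles at a finite vertex form one cycle -/

noncomputable section

namespace MP91a79a

open Set Classical

variable {P : Finset Pt} {T : Finset (Finset Pt)}

/-- in an open half plane (or its opposite) at `v` there is an angularly last point -/
private theorem G3_max {v u : Pt} {F : Finset Pt} (hF : F.Nonempty)
    (h : ∀ a ∈ F, ∀ b ∈ F, 0 < cr v u a * cr v u b) : ∃ w ∈ F, ∀ w' ∈ F, cr v w w' ≤ 0 := by
  obtain ⟨w, hw, hmin⟩ := Finset.exists_min_image F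
    (fun w => ((u.1 - v.1) * (w.1 - v.1) + (u.2 - v.2) * (w.2 - v.2)) / cr v u w) hF
  refine ⟨w, hw, fun w' hw' => ?_⟩
  have h1 := hmin w' hw'
  have hp := h w hw w' hw'
  have hww := h w hw w hw
  by_contra hcon
  push Not at hcon
  have hne : cr v u w ≠ 0 := fun h0 => by rw [h0] at hp; simp at hp
  have hne' : cr v u w' ≠ 0 := fun h0 => by rw [h0] at hp; simp at hp
  have key : ((u.1 - v.1) * (w.1 - v.1) + (u.2 - v.2) * (w.2 - v.2)) / cr v u w -
      ((u.1 - v.1) * (w'.1 - v.1) + (u.2 - v.2) * (w'.2 - v.2)) / cr v u w' =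
      ((u.1 - v.1) ^ 2 + (u.2 - v.2) ^ 2) * cr v w w' / (cr v u w * cr v u w') := by
    rw [div_sub_div _ _ hne hne']
    congr 1
    unfold cr
    ring
  have hsq : 0 < (u.1 - v.1) ^ 2 + (u.2 - v.2) ^ 2 := by
    by_contra h0
    push Not at h0
    have e1 : u.1 - v.1 = 0 := by nlinarith [sq_nonneg (u.1 - v.1), sq_nonneg (u.2 - v.2)]
    have e2 : u.2 - v.2 = 0 := by nlinarith [sq_nonneg (u.1 - v.1), sq_nonneg (u.2 - v.2)]
    apply hne
    unfold cr
    rw [e1, e2]
    ring
  have : 0 < ((u.1 - v.1) ^ 2 + (u.2 - v.2) ^ 2) * cr v w w' / (cr v u w * cr v u w') := by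
    positivity
  linarith

/-- PROOF (no angles). Write `a ≺ b` for `0 < cr v a b`. Suppose `OT (some v) u y` but `¬ S u`.
Facts: (i) in an open half plane at `v` (`{w | 0 < cr v u w}` or `{w | cr v u w < 0}`, or all of
`P` if `v` is a hull vertex) `≺` is transitive, so a nonempty finite set of points in it has a
`≺`-maximal element; (ii) if `OT v w w'` (finite `w, w'`) and `v u` is a side of `T`, `u ≠ w, w'`,
then `u` is not strictly between: not (`0 < cr v w u` and `0 < cr v u w'`) (`STri.no_side_in` in
FlipEx.lean, or `STri.noCross` + no point of `P` in a triangle).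
CASE `u` finite, `none ∉ S`. (a) some finite `w ∈ S` with `cr v u w < 0`: then the next vertex `w'`
(`OT v w w'`) has `cr v u w' < 0` as well (else `u` strictly between `w` and `w'`, or `w' = u ∈ S`),
so `S ∩ {cr v u · < 0}` is closed under next, but its `≺`-maximal element `w` has `w ≺ w'`.
(b) otherwise all elements of `S` (restricted to neighbours of `v`) have `0 < cr v u w`, again closed
under next: contradiction in the same way.
CASE `u` finite, `none ∈ S`: then `v` is a hull vertex, `OT v none (some b)` with `HE P v b`, so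
`b ∈ S`, `b ≺ u`. Take the `≺`-maximal `w ∈ S` with `w ≺ u` (neighbour of `v`), and `OT v w w'`:
`w' ≠ none` (otherwise `HE P w v`, so `cr v w u ≤ 0`), `w' ≠ u`, `w ≺ w'`, so not `w' ≺ u`, so `u`
is strictly between `w` and `w'`.
CASE `u = none` (so `v` is a hull vertex and `none ∉ S`): all of `S` is finite, `≺` is transitive
on `P \ {v}`, a `≺`-maximal element `w` of `S` (among neighbours of `v`) has a next `w' ∈ S`,
`w ≺ w'`: contradiction.
(Restrict `S` to the finite set of neighbours `P.filter (fun w => ∃ z, OT P T (some v) (some w) z)`.)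
The opposite triangles exist by `STri.other` (see G1 `OT_opp`; you may assume G1: the theorems
`OT_fn`, `OT_opp` as hypotheses if you need them: here `hopp`). -/
theorem OT_link (hG : GP P) (hT : STri P T) (h3 : 3 ≤ P.card)
    (hopp : ∀ x y z, OT P T x y z → ∃ w, OT P T y x w) (v : Pt) (S : Option Pt → Prop)
    (h1 : ∃ x y, S x ∧ OT P T (some v) x y) (h2 : ∀ x y, S x → OT P T (some v) x y → S y)
    (x y : Option Pt) (h : OT P T (some v) x y) : S x := by
  by_contra hSx
  have hv : v ∈ P := by
    have := OT_mem hT _ _ _ h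
    rw [mem_Wp] at this
    rcases this with h | ⟨z, hz, he⟩
    · cases h
    · rw [Option.some.injEq] at he
      rw [he]; exact hz
  -- neighbours
  have hnb : ∀ w z, OT P T (some v) (some w) z → w ∈ P ∧ v ≠ w := by
    intro w z hw
    refine ⟨?_, fun he => OT_ne _ _ _ hw (by rw [he])⟩
    have := OT_mem hT _ _ _ (OT_rot _ _ _ hw)
    rw [mem_Wp] at this
    rcases this with h | ⟨z, hz, he⟩
    · cases h
    · rw [Option.some.injEq] at he
      rw [he]; exact hz
  have hside : ∀ w z, OT P T (some v) (some w) z → Side T v w := by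
    intro w z hw
    cases z with
    | none => exact (HE.side hG hT hw).symm
    | some z => exact ⟨(hnb w _ hw).2, _, hw.1, by simp, by simp⟩
  set S' : Option Pt → Prop := fun x => S x ∧ ∃ z, OT P T (some v) x z with hS'
  have hnext : ∀ x, S' x → ∃ y, OT P T (some v) x y ∧ S' y := by
    rintro x ⟨hx, z, hz⟩
    refine ⟨z, hz, h2 _ _ hx hz, ?_⟩
    exact hopp _ _ _ (OT_rot _ _ _ (OT_rot _ _ _ hz))
  obtain ⟨x0, y0, hx0, hxy0⟩ := h1
  have hne0 : S' x0 := ⟨hx0, y0, hxy0⟩
  have hpos : ∀ w w', OT P T (some v) (some w) (some w') → 0 < cr v w w' := fun _ _ hw => hw.2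
  have hin : ∀ w w' u, OT P T (some v) (some w) (some w') → Side T v u →
      0 < cr v w u → 0 < cr v u w' → False := by
    intro w w' u hw hu ha hb
    exact STri.no_side_in hT hw.1 hu ha hb hw.2
  cases x with
  | none =>
    -- `v` is a hull vertex
    have hHV : HV P v := by
      cases y with
      | none => exact absurd h (by simp [OT])
      | some b => exact HE.hv_left h
    set F : Finset Pt := P.filter (fun w => S' (some w)) with hF
    have hFne : F.Nonempty := by
      cases x0 with
      | none => exact absurd hx0 hSx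
      | some w => exact ⟨w, Finset.mem_filter.2 ⟨(hnb w _ hxy0).1, hne0⟩⟩
    have hvF : v ∉ F := by
      intro hvF
      obtain ⟨_, _, z, hz⟩ := Finset.mem_filter.1 hvF
      exact (hnb v z hz).2 rfl
    obtain ⟨w, hw, hmax⟩ := HV.first hG hv hHV (-1) F (Finset.filter_subset _ _) hvF hFne
    obtain ⟨_, hw2⟩ := Finset.mem_filter.1 hw
    obtain ⟨w', hww', hSw'⟩ := hnext _ hw2
    cases w' with
    | none => exact hSx hSw'.1
    | some w' =>
      obtain ⟨z, hz⟩ := hSw'.2
      have hw'F : w' ∈ F := Finset.mem_filter.2 ⟨(hnb w' z hz).1, hSw'⟩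
      have ha := hmax w' hw'F
      have hb := hpos _ _ hww'
      linarith
  | some u =>
    have hu := hnb u y h
    have hus := hside u y h
    by_cases hnone : S' none
    · obtain ⟨_, z, hz⟩ := hnone
      cases z with
      | none => exact absurd hz (by simp [OT])
      | some b =>
        have hHE : HE P v b := hz
        have hSb : S (some b) := h2 _ _ ‹S none› hz
        have hbS : S' (some b) := by
          obtain ⟨z', hz', hSz'⟩ := hnext none ⟨‹S none›, _, hz⟩
          refine ⟨hSb, ?_⟩
          exact hopp _ _ _ (OT_rot _ _ _ (OT_rot _ _ _ hz))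
        have hbu : u ≠ b := fun he => hSx (he ▸ hSb)
        have hbu' : 0 < cr v b u := hHE.pos hG hu.1 hu.2.symm hbu
        set F : Finset Pt := P.filter (fun w => S' (some w) ∧ 0 < cr v w u) with hF
        have hFne : F.Nonempty := ⟨b, Finset.mem_filter.2 ⟨hHE.2.1, hbS, hbu'⟩⟩
        have hvF : v ∉ F := by
          intro hvF
          obtain ⟨_, _, hcr⟩ := Finset.mem_filter.1 hvF
          have : cr v v u = 0 := by unfold cr; ring
          rw [this] at hcr
          exact lt_irrefl _ hcr
        obtain ⟨w, hw, hmax⟩ := HV.first hG hv hHE.hv_left (-1) F (Finset.filter_subset _ _)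
          hvF hFne
        obtain ⟨hwP, hw2, hwu⟩ := Finset.mem_filter.1 hw
        obtain ⟨w', hww', hSw'⟩ := hnext _ hw2
        cases w' with
        | none =>
          have hHE' : HE P w v := hww'
          have := hHE'.2.2.2 u hu.1
          rw [cr_swap] at this
          linarith
        | some w' =>
          obtain ⟨z, hz'⟩ := hSw'.2
          obtain ⟨hw'P, hvw'⟩ := hnb w' z hz'
          have hb := hpos _ _ hww'
          have hw'u : w' ≠ u := fun he => hSx (he ▸ hSw'.1)
          have hnF : ¬ 0 < cr v w' u := by
            intro hcon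
            have ha := hmax w' (Finset.mem_filter.2 ⟨hw'P, hSw', hcon⟩)
            linarith
          have hne : cr v w' u ≠ 0 := hG v hv w' hw'P u hu.1 hvw' hu.2 hw'u
          have hlt : 0 < cr v u w' := by
            have e : cr v u w' = - cr v w' u := cr_neg _ _ _
            rw [e]
            rcases lt_or_gt_of_ne hne with h | h
            · linarith
            · exact absurd h hnF
          exact hin w w' u hww' hus hwu hlt
    · -- all of `S'` is finite
      have hfin : ∀ κ : ℝ, (κ = 1 ∨ κ = -1) →
          (∀ w w', S' (some w) → 0 < κ * cr v u w → OT P T (some v) (some w) (some w') →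
            S' (some w') → 0 < κ * cr v u w') →
          (∃ w, S' (some w) ∧ 0 < κ * cr v u w) → False := by
        intro κ _ hcl ⟨w0, hw0, hw0'⟩
        set F : Finset Pt := P.filter (fun w => S' (some w) ∧ 0 < κ * cr v u w) with hF
        have hFne : F.Nonempty := by
          obtain ⟨z, hz⟩ := hw0.2
          exact ⟨w0, Finset.mem_filter.2 ⟨(hnb w0 z hz).1, hw0, hw0'⟩⟩
        obtain ⟨w, hw, hmax⟩ := G3_max (v := v) (u := u) hFne (by
          intro a ha b hb
          have h1 := (Finset.mem_filter.1 ha).2.2
          have h2 := (Finset.mem_filter.1 hb).2.2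
          have h3 := mul_pos h1 h2
          have e : κ * cr v u a * (κ * cr v u b) = κ ^ 2 * (cr v u a * cr v u b) := by ring
          rw [e] at h3
          have hκ : 0 < κ ^ 2 := by
            have : κ ≠ 0 := by rintro rfl; simp at h1
            positivity
          exact (mul_pos_iff_of_pos_left hκ).1 h3)
        obtain ⟨hwP, hw2, hw3⟩ := Finset.mem_filter.1 hw
        obtain ⟨w', hww', hSw'⟩ := hnext _ hw2
        cases w' with
        | none => exact hnone hSw'
        | some w' =>
          obtain ⟨z, hz⟩ := hSw'.2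
          have h4 := hcl w w' hw2 hw3 hww' hSw'
          have h5 := hmax w' (Finset.mem_filter.2 ⟨(hnb w' z hz).1, hSw', h4⟩)
          have h6 := hpos _ _ hww'
          linarith
      have hcrne : ∀ w, S' (some w) → cr v u w ≠ 0 := by
        intro w hw
        obtain ⟨z, hz⟩ := hw.2
        obtain ⟨hwP, hvw⟩ := hnb w z hz
        exact hG v hv u hu.1 w hwP hu.2 hvw (fun he => hSx (he ▸ hw.1))
      by_cases hneg : ∃ w, S' (some w) ∧ cr v u w < 0
      · refine hfin (-1) (Or.inr rfl) ?_ ?_
        · intro w w' hw hcr hww' hSw'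
          have hcr' : cr v u w < 0 := by linarith
          rcases lt_or_gt_of_ne (hcrne w' hSw') with h | h
          · linarith
          · exfalso
            refine hin w w' u hww' hus ?_ h
            rw [cr_neg]; linarith
        · obtain ⟨w, hw, hw'⟩ := hneg
          exact ⟨w, hw, by linarith⟩
      · push Not at hneg
        refine hfin 1 (Or.inl rfl) ?_ ?_
        · intro w w' hw hcr hww' hSw'
          have := lt_of_le_of_ne (hneg w' hSw') (hcrne w' hSw').symm
          linarith
        · cases x0 with
          | none => exact absurd hne0 hnone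
          | some w =>
            have := lt_of_le_of_ne (hneg w hne0) (hcrne w hne0).symm
            exact ⟨w, hne0, by linarith⟩

end MP91a79a

end
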