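import Pool.Agent.Lib.MP_91a79a_co.SphDef

/-! piece G4 (MP_91a79a_co): the hull is one cycle -/

noncomputable section

namespace MP91a79a

open Set Classical

variable {P : Finset Pt} {T : Finset (Finset Pt)}

/-- PROOF. `OT none x y` is `HE P y' x'` (`x = some x'`, `y = some y'`), so `S` is closed under
hull predecessor: `S (some w)`, `HE P u w` implies `S (some u)`. `S` contains a hull vertex `u0`.
Let `x` be a hull vertex, `x ≠ u0`, not in `S`. Consider the hull vertices `w ∈ S`, `w ≠ u0`, with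
`0 < cr u0 x w` (angular order at the hull vertex `u0`: all other points of `P` are in an open half
plane, `a ≺ b := 0 < cr u0 a b` is a strict linear order on `P \ {u0}`).  The predecessor `w1` of
`u0` is the `≺`-last point, so `x ≺ w1` (`w1 ∈ S`, `w1 ≠ x`). Take the `≺`-smallest `w ∈ S` with
`x ≺ w` and its predecessor `w'`, `HE P w' w`, `w' ∈ S`, `w' ≠ x`. If `w' = u0`: `HE P u0 w` gives
`0 ≤ cr u0 w x`, contradiction to `x ≺ w`. Otherwise `w' ≺ w` (`HE.pos` at `u0`), so not `x ≺ w'`
by minimality, so `w' ≺ x ≺ w`, and `x` is on the left of `w' → w` (`HE.pos`): `x` is in the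
interior of the triangle `u0 w' w`: contradiction to `HV P x` (`HV.not_in_tri`). -/
theorem OT_link_inf (hG : GP P) (hT : STri P T) (h3 : 3 ≤ P.card) (S : Option Pt → Prop)
    (h1 : ∃ x y, S x ∧ OT P T none x y) (h2 : ∀ x y, S x → OT P T none x y → S y)
    (x y : Option Pt) (h : OT P T none x y) : S x := by
  obtain ⟨x0, y0, hS0, h0⟩ := h1
  rcases x0 with _ | u0
  · simp only [OT] at h0
  rcases y0 with _ | v0
  · simp only [OT] at h0
  rcases x with _ | x
  · simp only [OT] at h
  rcases y with _ | y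
  · simp only [OT] at h
  have hu : HE P v0 u0 := h0
  have hx : HE P y x := h
  have hstep : ∀ u w, S (some w) → HE P u w → S (some u) := fun u w hw huw =>
    h2 (some w) (some u) hw huw
  by_contra hSx
  have hne : ∀ u, S (some u) → u ≠ x := fun u hu he => hSx (he ▸ hu)
  have hxu0 : u0 ≠ x := hne u0 hS0
  have hxP : x ∈ P := hx.2.1
  have hu0P : u0 ∈ P := hu.2.1
  let W : Finset Pt := P.filter (fun w => S (some w) ∧ HV P w ∧ w ≠ u0 ∧ 0 < cr u0 x w)
  have hWP : W ⊆ P := Finset.filter_subset _ _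
  have hu0W : u0 ∉ W := fun hmem => (Finset.mem_filter.1 hmem).2.2.2.1 rfl
  have hWne : W.Nonempty := by
    obtain ⟨w1, hw1⟩ := HV.pred hG hu0P hu.hv_right (by omega)
    have hS1 := hstep w1 u0 hS0 hw1
    refine ⟨w1, Finset.mem_filter.2 ⟨hw1.1, hS1, hw1.hv_left, hw1.2.2.1, ?_⟩⟩
    have hp := hw1.pos hG hxP (hne w1 hS1).symm hxu0.symm
    rwa [cr_rot] at hp
  obtain ⟨w, hwW, hmin⟩ := HV.first hG hu0P hu.hv_right 1 W hWP hu0W hWne
  obtain ⟨hwP, hwS, hwH, hwu, hxw⟩ := Finset.mem_filter.1 hwW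
  obtain ⟨w', hw'⟩ := HV.pred hG hwP hwH (by omega)
  have hS' := hstep w' w hwS hw'
  have hw'x : w' ≠ x := hne w' hS'
  have hwx : w ≠ x := hne w hwS
  by_cases hcase : w' = u0
  · subst hcase
    have hle := hw'.2.2.2 x hxP
    have e : cr w' x w = - cr w' w x := by unfold cr; ring
    rw [e] at hxw
    linarith
  · have hp1 := hw'.pos hG hu0P (Ne.symm hcase) hwu.symm
    have hp2 := hw'.pos hG hxP hw'x.symm hwx.symm
    have hnot : ¬ 0 < cr u0 x w' := by
      intro hlt
      have hmem : w' ∈ W := Finset.mem_filter.2 ⟨hw'.1, hS', hw'.hv_left, hcase, hlt⟩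
      have h5 := hmin w' hmem
      have e : cr u0 w w' = - cr w' w u0 := by unfold cr; ring
      rw [one_mul, e] at h5
      linarith
    have hnz : cr u0 x w' ≠ 0 :=
      hG u0 hu0P x hxP w' hw'.1 hxu0 (Ne.symm hcase) hw'x.symm
    have hlt : cr u0 x w' < 0 := lt_of_le_of_ne (not_lt.1 hnot) hnz
    have e1 : cr u0 w' x = - cr u0 x w' := by unfold cr; ring
    have e2 : cr w u0 x = cr u0 x w := by unfold cr; ring
    exact hx.hv_right.not_in_tri hu0P hw'.1 hwP (by rw [e1]; linarith) hp2 (by rw [e2]; exact hxw)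

end MP91a79a

end
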